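import Pool.Agent.Work.MP_dc0135_an.Defs

-- merged part: Pool.Agent.Work.MP_dc0135_an.Conv
section
/-! Integrated forms of isometric representations and convolution on `L¹(G)`. -/

open MeasureTheory Filter Topology
open scoped ENNReal

namespace Pool.Agent.Work.MP_dc0135_an

section Pair

variable {X : Type*} [MeasurableSpace X] (μ : Measure X)

theorem integrable_mul_bdd (Ψ : X → ℂ) (hΨ : AEStronglyMeasurable Ψ μ) (C : ℝ)
    (hC : ∀ y, ‖Ψ y‖ ≤ C) (f : X → ℂ) (hf : Integrable f μ) :
    Integrable (fun y => f y * Ψ y) μ :=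
  hf.mul_bdd hΨ (Eventually.of_forall hC)

/-- The functional `f ↦ ∫ f Ψ` on `L¹` given by a bounded measurable function `Ψ`. -/
noncomputable def pair (Ψ : X → ℂ) (hΨ : AEStronglyMeasurable Ψ μ) (C : ℝ)
    (hC : ∀ y, ‖Ψ y‖ ≤ C) : Lp ℂ 1 μ →L[ℂ] ℂ :=
  LinearMap.mkContinuous
    { toFun := fun f => ∫ y, f y * Ψ y ∂μ
      map_add' := fun f g => by
        rw [← integral_add (integrable_mul_bdd μ Ψ hΨ C hC _ (L1.integrable_coeFn f))
          (integrable_mul_bdd μ Ψ hΨ C hC _ (L1.integrable_coeFn g))]
        refine integral_congr_ae ?_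
        filter_upwards [Lp.coeFn_add f g] with y hy
        rw [hy, Pi.add_apply, add_mul]
      map_smul' := fun c f => by
        simp only [RingHom.id_apply, smul_eq_mul]
        rw [← integral_const_mul]
        refine integral_congr_ae ?_
        filter_upwards [Lp.coeFn_smul c f] with y hy
        rw [hy, Pi.smul_apply, smul_eq_mul, mul_assoc] }
    C (fun f => by
      simp only [LinearMap.coe_mk, AddHom.coe_mk]
      rw [L1.norm_eq_integral_norm, ← integral_const_mul]
      refine norm_integral_le_of_norm_le ((L1.integrable_coeFn f).norm.const_mul C) ?_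
      refine Eventually.of_forall fun y => ?_
      rw [norm_mul, mul_comm]
      exact mul_le_mul_of_nonneg_right (hC y) (norm_nonneg _))

theorem pair_apply (Ψ : X → ℂ) (hΨ : AEStronglyMeasurable Ψ μ) (C : ℝ)
    (hC : ∀ y, ‖Ψ y‖ ≤ C) (f : Lp ℂ 1 μ) : pair μ Ψ hΨ C hC f = ∫ y, f y * Ψ y ∂μ := rfl

end Pair

/-- A strongly continuous isometric representation. -/
structure IsoRep (G : Type*) [Group G] [TopologicalSpace G] (E : Type*) [NormedAddCommGroup E]
    [NormedSpace ℂ E] where
  ρ : G → E →L[ℂ] E
  map_mul : ∀ x y v, ρ (x * y) v = ρ x (ρ y v)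
  norm_eq : ∀ x v, ‖ρ x v‖ = ‖v‖
  cont : ∀ v, Continuous fun x => ρ x v

variable {G : Type*} [Group G] [TopologicalSpace G] [IsTopologicalGroup G]
  [LocallyCompactSpace G] [T2Space G] [SecondCountableTopology G] [MeasurableSpace G]
  [BorelSpace G] (μ : Measure G) [μ.IsHaarMeasure]

/-- Left translation on `L¹(G)`. -/
noncomputable def LL (x : G) : Lp ℂ 1 μ →L[ℂ] Lp ℂ 1 μ :=
  (Lp.compMeasurePreservingₗᵢ ℂ (fun y => x⁻¹ * y)
    (measurePreserving_mul_left μ x⁻¹)).toContinuousLinearMap

omit [LocallyCompactSpace G] [T2Space G] [SecondCountableTopology G] in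
theorem LL_ae (x : G) (f : Lp ℂ 1 μ) : LL μ x f =ᵐ[μ] fun y => f (x⁻¹ * y) :=
  Lp.coeFn_compMeasurePreserving f (measurePreserving_mul_left μ x⁻¹)

omit [LocallyCompactSpace G] [T2Space G] [SecondCountableTopology G] in
theorem norm_LL (x : G) (f : Lp ℂ 1 μ) : ‖LL μ x f‖ = ‖f‖ :=
  Lp.norm_compMeasurePreserving f (measurePreserving_mul_left μ x⁻¹)

omit [LocallyCompactSpace G] [T2Space G] [SecondCountableTopology G] in
theorem LL_mul (x y : G) (f : Lp ℂ 1 μ) : LL μ (x * y) f = LL μ x (LL μ y f) := by
  apply Lp.ext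
  have h1 := (measurePreserving_mul_left μ x⁻¹).quasiMeasurePreserving.ae_eq_comp (LL_ae μ y f)
  filter_upwards [LL_ae μ (x * y) f, LL_ae μ x (LL μ y f), h1] with z h2 h3 h4
  rw [h2, h3]
  simp only [Function.comp_apply] at h4
  rw [h4, mul_inv_rev, mul_assoc]

theorem continuous_LL (f : Lp ℂ 1 μ) : Continuous fun x => LL μ x f := by
  let g : G → C(G, G) := fun x => ⟨fun y => x⁻¹ * y, by fun_prop⟩
  have hg : Continuous g := by
    apply ContinuousMap.continuous_of_continuous_uncurry
    simp only [g]
    exact (continuous_fst.inv.mul continuous_snd)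
  exact Continuous.compMeasurePreservingLp (μ := μ) (ν := μ) (continuous_const (y := f)) hg
    (fun x => measurePreserving_mul_left μ x⁻¹) ENNReal.one_ne_top

/-- The left regular representation on `L¹(G)`. -/
noncomputable def regRep : IsoRep G (Lp ℂ 1 μ) where
  ρ := LL μ
  map_mul := LL_mul μ
  norm_eq := norm_LL μ
  cont := continuous_LL μ

variable {E : Type*} [NormedAddCommGroup E] [NormedSpace ℂ E] (R : IsoRep G E)

omit [IsTopologicalGroup G] [LocallyCompactSpace G] [T2Space G] [μ.IsHaarMeasure] in
theorem integrable_act (f : G → ℂ) (hf : Integrable f μ) (v : E) :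
    Integrable (fun y => f y • R.ρ y v) μ := by
  refine Integrable.mono' (hf.norm.mul_const ‖v‖)
    (hf.aestronglyMeasurable.smul (R.cont v).aestronglyMeasurable) ?_
  refine Eventually.of_forall fun y => ?_
  rw [norm_smul, R.norm_eq]

/-- The integrated form of an isometric representation. -/
noncomputable def act : Lp ℂ 1 μ →L[ℂ] E →L[ℂ] E :=
  LinearMap.mkContinuous₂
    (LinearMap.mk₂ ℂ (fun (f : Lp ℂ 1 μ) (v : E) => ∫ y, f y • R.ρ y v ∂μ)
      (fun f g v => by
        rw [← integral_add (integrable_act μ R _ (L1.integrable_coeFn f) v)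
          (integrable_act μ R _ (L1.integrable_coeFn g) v)]
        refine integral_congr_ae ?_
        filter_upwards [Lp.coeFn_add f g] with y hy
        rw [hy, Pi.add_apply, add_smul])
      (fun c f v => by
        rw [← integral_smul]
        refine integral_congr_ae ?_
        filter_upwards [Lp.coeFn_smul c f] with y hy
        rw [hy, Pi.smul_apply, smul_eq_mul, mul_smul])
      (fun f v w => by
        rw [← integral_add (integrable_act μ R _ (L1.integrable_coeFn f) v)
          (integrable_act μ R _ (L1.integrable_coeFn f) w)]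
        simp only [map_add, smul_add])
      (fun c f v => by
        rw [← integral_smul]
        simp only [map_smul, smul_comm c]))
    1 (fun f v => by
      simp only [LinearMap.mk₂_apply, one_mul]
      rw [L1.norm_eq_integral_norm, ← integral_mul_const]
      refine norm_integral_le_of_norm_le ((L1.integrable_coeFn f).norm.mul_const _) ?_
      refine Eventually.of_forall fun y => ?_
      rw [norm_smul, R.norm_eq])

omit [IsTopologicalGroup G] [LocallyCompactSpace G] [T2Space G] [μ.IsHaarMeasure] in
theorem act_apply (f : Lp ℂ 1 μ) (v : E) : act μ R f v = ∫ y, f y • R.ρ y v ∂μ := rfl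

omit [IsTopologicalGroup G] [LocallyCompactSpace G] [T2Space G] [μ.IsHaarMeasure] in
theorem norm_act_le (f : Lp ℂ 1 μ) (v : E) : ‖act μ R f v‖ ≤ ‖f‖ * ‖v‖ := by
  rw [act_apply, L1.norm_eq_integral_norm, ← integral_mul_const]
  refine norm_integral_le_of_norm_le ((L1.integrable_coeFn f).norm.mul_const _) ?_
  refine Eventually.of_forall fun y => ?_
  rw [norm_smul, R.norm_eq]

omit [IsTopologicalGroup G] [LocallyCompactSpace G] [T2Space G] [μ.IsHaarMeasure] in
theorem clm_act [CompleteSpace E] {F : Type*} [NormedAddCommGroup F] [NormedSpace ℂ F]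
    [CompleteSpace F] (T : E →L[ℂ] F) (f : Lp ℂ 1 μ) (v : E) :
    T (act μ R f v) = ∫ y, f y • T (R.ρ y v) ∂μ := by
  rw [act_apply, ← T.integral_comp_comm (integrable_act μ R _ (L1.integrable_coeFn f) v)]
  simp only [map_smul]

omit [LocallyCompactSpace G] [T2Space G] in
theorem act_LL [CompleteSpace E] (x : G) (f : Lp ℂ 1 μ) (v : E) :
    act μ R (LL μ x f) v = R.ρ x (act μ R f v) := by
  rw [clm_act, act_apply]
  have h1 : ∫ y, (LL μ x f) y • R.ρ y v ∂μ = ∫ y, f (x⁻¹ * y) • R.ρ y v ∂μ := by
    refine integral_congr_ae ?_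
    filter_upwards [LL_ae μ x f] with y hy
    rw [hy]
  rw [h1, ← integral_mul_left_eq_self (fun y => f (x⁻¹ * y) • R.ρ y v) x]
  simp only [inv_mul_cancel_left, R.map_mul]

omit [T2Space G] in
theorem integrable_conv_prod (f g : Lp ℂ 1 μ) :
    Integrable (fun p : G × G => f p.1 * g (p.1⁻¹ * p.2)) (μ.prod μ) := by
  have h := (L1.integrable_coeFn f).mul_prod (L1.integrable_coeFn g)
  exact (measurePreserving_prod_inv_mul μ μ).integrable_comp_of_integrable h

theorem act_regRep_ae (f g : Lp ℂ 1 μ) : act μ (regRep μ) f g =ᵐ[μ] groupConv μ f g := by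
  have hI := integrable_conv_prod μ f g
  have hc : Integrable (groupConv μ f g) μ := hI.integral_prod_right
  refine Integrable.ae_eq_of_forall_setIntegral_eq _ _ (L1.integrable_coeFn _) hc ?_
  intro s hs _
  have hm : AEStronglyMeasurable (s.indicator fun _ => (1 : ℂ)) μ :=
    (aestronglyMeasurable_const.indicator hs)
  have hb : ∀ y, ‖(s.indicator fun _ => (1 : ℂ)) y‖ ≤ 1 := fun y => by
    by_cases hy : y ∈ s <;> simp [hy]
  have key : ∀ u : G → ℂ, ∫ y, u y * (s.indicator fun _ => (1 : ℂ)) y ∂μ = ∫ y in s, u y ∂μ := by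
    intro u
    rw [← integral_indicator hs]
    refine integral_congr_ae (Eventually.of_forall fun y => ?_)
    by_cases hy : y ∈ s <;> simp [hy]
  rw [← key, ← pair_apply μ _ hm 1 hb, clm_act]
  have h2 : ∀ y, pair μ _ hm 1 hb ((regRep μ).ρ y g) = ∫ x in s, g (y⁻¹ * x) ∂μ := by
    intro y
    rw [pair_apply, key]
    exact integral_congr_ae (ae_restrict_of_ae (LL_ae μ y g))
  simp only [h2, smul_eq_mul, ← integral_const_mul]
  have hI' : Integrable (Function.uncurry fun y x => f y * g (y⁻¹ * x)) (μ.prod (μ.restrict s)) := by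
    have : μ.prod (μ.restrict s) = (μ.prod μ).restrict (Set.univ ×ˢ s) := by
      rw [← Measure.prod_restrict, Measure.restrict_univ]
    rw [this]
    exact hI.restrict
  rw [integral_integral_swap hI']
  rfl

end Pool.Agent.Work.MP_dc0135_an
end

-- merged part: Pool.Agent.Work.MP_dc0135_an.Tensor
section
/-! A pseudo-amenable Banach algebra has right approximate units. -/

open MeasureTheory Filter Topology
open scoped ENNReal TensorProduct

namespace Pool.Agent.Work.MP_dc0135_an

section General

variable {E : Type*} [NormedAddCommGroup E] [NormedSpace ℂ E]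

theorem projMap_eq (f g : E →L[ℂ] E) : projMap f g =
    (PiTensorProduct.mapL (𝕜 := ℂ) (E := fun _ : Fin 2 => E) (E' := fun _ : Fin 2 => E)
      ![f, g]).completion := rfl

theorem projLift_eq [CompleteSpace E] (B : E →L[ℂ] E →L[ℂ] E) : projLift B =
    (PiTensorProduct.liftEquiv ℂ (fun _ : Fin 2 => E) E (toMultilinear B)).fromCompletion := rfl

end General

variable {A : Type*} [NonUnitalNormedRing A] [NormedSpace ℂ A] [IsScalarTower ℂ A A]
  [SMulCommClass ℂ A A] [CompleteSpace A]

/-- The product map as a continuous linear map. -/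
noncomputable def prodMapL (A : Type*) [NonUnitalNormedRing A] [NormedSpace ℂ A]
    [IsScalarTower ℂ A A] [SMulCommClass ℂ A A] [CompleteSpace A] : ProjSquare A →L[ℂ] A :=
  (PiTensorProduct.liftEquiv ℂ (fun _ : Fin 2 => A) A
    (toMultilinear (ContinuousLinearMap.mul ℂ A))).fromCompletion

theorem prodMap_eq : prodMap A = prodMapL A := rfl

theorem prodMap_lact (a : A) (u : ProjSquare A) : prodMapL A (lact a u) = a * prodMapL A u := by
  rw [lact, projMap_eq]
  induction u using UniformSpace.Completion.induction_on with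
  | hp => exact isClosed_eq (by fun_prop) (by fun_prop)
  | ih t =>
    simp only [prodMapL, ContinuousLinearMap.completion_apply_coe,
      ContinuousLinearMap.fromCompletion_apply_coe]
    induction t using PiTensorProduct.induction_on with
    | smul_tprod r f => simp [toMultilinear, mul_assoc, mul_smul_comm]
    | add x y hx hy => simp only [map_add, hx, hy, mul_add]

theorem prodMap_ract (a : A) (u : ProjSquare A) : prodMapL A (ract a u) = prodMapL A u * a := by
  rw [ract, projMap_eq]
  induction u using UniformSpace.Completion.induction_on with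
  | hp => exact isClosed_eq (by fun_prop) (by fun_prop)
  | ih t =>
    simp only [prodMapL, ContinuousLinearMap.completion_apply_coe,
      ContinuousLinearMap.fromCompletion_apply_coe]
    induction t using PiTensorProduct.induction_on with
    | smul_tprod r f => simp [toMultilinear, mul_assoc, smul_mul_assoc]
    | add x y hx hy => simp only [map_add, hx, hy, add_mul]

/-- If a continuous functional kills `a * A` but not `a`, then `A` is not pseudo-amenable. -/
theorem not_isPseudoAmenable (φ : A →L[ℂ] ℂ) (a : A) (h0 : ∀ b, φ (a * b) = 0) (h1 : φ a ≠ 0) :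
    ¬ IsPseudoAmenable A := by
  rintro ⟨l, hl, h⟩
  obtain ⟨h2, h3⟩ := h a
  rw [prodMap_eq] at h3
  have h4 : Tendsto (fun u => a * prodMapL A u - prodMapL A u * a) l (𝓝 0) := by
    have := ((prodMapL A).continuous.tendsto 0).comp h2
    simpa [Function.comp_def, prodMap_lact, prodMap_ract] using this
  have h5 : Tendsto (fun u => a * prodMapL A u) l (𝓝 a) := by
    simpa using h4.add h3
  have h6 := (φ.continuous.tendsto a).comp h5
  simp only [Function.comp_def, h0] at h6
  exact h1 (tendsto_nhds_unique h6 tendsto_const_nhds)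

end Pool.Agent.Work.MP_dc0135_an
end

-- merged part: Pool.Agent.Work.MP_dc0135_an.SegalData
section
/-! A Banach space embedded equivariantly and densely in `L¹(G)` is a Segal algebra. -/

open MeasureTheory Filter Topology
open scoped ENNReal

namespace Pool.Agent.Work.MP_dc0135_an

variable {G : Type*} [Group G] [TopologicalSpace G] [IsTopologicalGroup G]
  [LocallyCompactSpace G] [T2Space G] [SecondCountableTopology G] [MeasurableSpace G]
  [BorelSpace G]

/-- Data from which a Segal algebra is built. -/
structure SegalData (μ : Measure G) [μ.IsHaarMeasure] (A : Type) [NormedAddCommGroup A]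
    [NormedSpace ℂ A] where
  j : A →L[ℂ] Lp ℂ 1 μ
  R : IsoRep G A
  equiv : ∀ x a, j (R.ρ x a) = LL μ x (j a)
  norm_le : ∀ a, ‖j a‖ ≤ ‖a‖
  inj : Function.Injective j
  dense : DenseRange j

variable {μ : Measure G} [μ.IsHaarMeasure] {A : Type} [NormedAddCommGroup A] [NormedSpace ℂ A]
  [CompleteSpace A] (D : SegalData μ A)

namespace SegalData

theorem j_act (f : Lp ℂ 1 μ) (a : A) : D.j (act μ D.R f a) = act μ (regRep μ) f (D.j a) := by
  rw [clm_act, act_apply]
  simp only [D.equiv]
  rfl

omit [LocallyCompactSpace G] [T2Space G] in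
theorem act_assoc (f : Lp ℂ 1 μ) (b c : A) :
    act μ D.R (D.j (act μ D.R f b)) c = act μ D.R f (act μ D.R (D.j b) c) := by
  have h := clm_act μ D.R (((act μ D.R).flip c).comp D.j) f b
  simp only [ContinuousLinearMap.comp_apply, ContinuousLinearMap.flip_apply] at h
  rw [h, act_apply μ D.R f]
  simp only [D.equiv, act_LL]

/-- The underlying type of the Segal algebra. -/
@[nolint unusedArguments]
def Alg (_D : SegalData μ A) : Type := A

noncomputable local instance algNormedAddCommGroup : NormedAddCommGroup D.Alg := inferInstanceAs (NormedAddCommGroup A)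
noncomputable local instance algNormedSpace : NormedSpace ℂ D.Alg := inferInstanceAs (NormedSpace ℂ A)
local instance algCompleteSpace : CompleteSpace D.Alg := inferInstanceAs (CompleteSpace A)

/-- Convolution product. -/
noncomputable def mulA (a b : A) : A := act μ D.R (D.j a) b

omit [LocallyCompactSpace G] [T2Space G] [CompleteSpace A] in
theorem add_mulA (a b c : A) : D.mulA (a + b) c = D.mulA a c + D.mulA b c := by
  unfold mulA
  rw [map_add, map_add]; rfl

omit [LocallyCompactSpace G] [T2Space G] [CompleteSpace A] in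
theorem zero_mulA (a : A) : D.mulA 0 a = 0 := by
  unfold mulA
  rw [map_zero, map_zero]; rfl

omit [LocallyCompactSpace G] [T2Space G] [CompleteSpace A] in
theorem smul_mulA (c : ℂ) (a b : A) : D.mulA (c • a) b = c • D.mulA a b := by
  unfold mulA
  rw [map_smul, map_smul]; rfl

theorem j_act_ae (f : Lp ℂ 1 μ) (a : A) :
    D.j (act μ D.R f a) =ᵐ[μ] groupConv μ f (D.j a) := by
  rw [D.j_act]
  exact act_regRep_ae μ _ _

omit [LocallyCompactSpace G] [T2Space G] [SecondCountableTopology G] [CompleteSpace A] in
theorem j_rho_ae (x : G) (a : A) : D.j (D.R.ρ x a) =ᵐ[μ] fun y => D.j a (x⁻¹ * y) := by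
  rw [D.equiv]
  exact LL_ae μ x _

noncomputable local instance algRing : NonUnitalNormedRing D.Alg :=
  { (inferInstance : NormedAddCommGroup D.Alg) with
    mul := D.mulA
    left_distrib := fun a b c => map_add (act μ D.R (D.j a)) b c
    right_distrib := D.add_mulA
    zero_mul := D.zero_mulA
    mul_zero := fun a => map_zero (act μ D.R (D.j a))
    mul_assoc := fun a b c => D.act_assoc (D.j a) b c
    norm_mul_le := fun a b => (norm_act_le μ D.R (D.j a) b).trans
      (mul_le_mul_of_nonneg_right (D.norm_le a) (norm_nonneg _)) }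

local instance algTower : IsScalarTower ℂ D.Alg D.Alg where
  smul_assoc := D.smul_mulA

local instance algComm : SMulCommClass ℂ D.Alg D.Alg where
  smul_comm c a b := (map_smul (act μ D.R (D.j a)) c b).symm

theorem isSegalAlgebra : IsSegalAlgebra μ D.Alg D.j.toLinearMap where
  injective := D.inj
  map_mul a b := D.j_act_ae (D.j a) b
  dense := D.dense
  left_ideal f a := ⟨act μ D.R f a, D.j_act_ae f a⟩
  norm_le := D.norm_le
  translation := ⟨fun x a => D.R.ρ x a, D.j_rho_ae, D.R.norm_eq, D.R.cont⟩

theorem exists_segal (φ : A →L[ℂ] ℂ) (a : A) (h0 : ∀ b, φ (act μ D.R (D.j a) b) = 0)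
    (h1 : φ a ≠ 0) :
    ∃ (B : Type) (_ : NonUnitalNormedRing B) (_ : NormedSpace ℂ B) (_ : IsScalarTower ℂ B B)
      (_ : SMulCommClass ℂ B B) (_ : CompleteSpace B) (j : B →ₗ[ℂ] Lp ℂ 1 μ),
      IsSegalAlgebra μ B j ∧ ¬ IsPseudoAmenable B :=
  ⟨D.Alg, inferInstance, inferInstance, inferInstance, inferInstance, inferInstance,
    D.j.toLinearMap, D.isSegalAlgebra, not_isPseudoAmenable (A := D.Alg) φ a h0 h1⟩

end SegalData

end Pool.Agent.Work.MP_dc0135_an
end
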