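import Mathlib

/-!
Definitions used in the statement for MP_dc0135_an: convolution, amenability, Segal algebras,
the projective tensor square of a Banach algebra and pseudo-amenability.
-/

open MeasureTheory Filter Topology
open scoped ENNReal TensorProduct ComplexOrder

namespace Pool.Agent.Work.MP_dc0135_an

section Groups

variable {G : Type*} [Group G] [TopologicalSpace G] [MeasurableSpace G]

/-- Convolution on the group `G`: `(f * g)(x) = ∫ f(y) g(y⁻¹ x) dμ(y)`. -/
noncomputable def groupConv (μ : Measure G) (f g : G → ℂ) : G → ℂ :=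
  fun x => ∫ y, f y * g (y⁻¹ * x) ∂μ

/-- The linear functional `m` on `L^∞(G, μ)` is a left invariant mean. -/
structure IsLeftInvariantMean (μ : Measure G) (m : Lp ℂ ∞ μ →ₗ[ℂ] ℂ) : Prop where
  /-- `m` is bounded by the `L^∞` norm -/
  norm_le : ∀ φ : Lp ℂ ∞ μ, ‖m φ‖ ≤ ‖φ‖
  /-- `m` is positive -/
  nonneg : ∀ φ : Lp ℂ ∞ μ, (∀ᵐ y ∂μ, 0 ≤ φ y) → 0 ≤ m φ
  /-- `m` sends the constant function `1` to `1` -/
  map_one : ∀ φ : Lp ℂ ∞ μ, (φ =ᵐ[μ] fun _ => 1) → m φ = 1
  /-- `m` is invariant under left translation `(L_x φ)(y) = φ(x⁻¹ y)` -/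
  invariant : ∀ (x : G) (φ ψ : Lp ℂ ∞ μ), (ψ =ᵐ[μ] fun y => φ (x⁻¹ * y)) → m ψ = m φ

/-- Amenability: there is a left invariant mean on `L^∞(G, μ)`. -/
def IsAmenable (μ : Measure G) : Prop :=
  ∃ m : Lp ℂ ∞ μ →ₗ[ℂ] ℂ, IsLeftInvariantMean μ m

/-- The Banach algebra `A` is a Segal algebra on `G` through the linear map `j : A → L¹(G, μ)`,
which identifies `A` with a linear subspace of `L¹(G, μ)` and the product of `A` with
convolution. -/
structure IsSegalAlgebra (μ : Measure G) (A : Type*) [NonUnitalNormedRing A] [NormedSpace ℂ A]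
    (j : A →ₗ[ℂ] Lp ℂ 1 μ) : Prop where
  /-- `A` is a subspace of `L¹(G)` -/
  injective : Function.Injective j
  /-- the product of `A` is convolution -/
  map_mul : ∀ a b : A, j (a * b) =ᵐ[μ] groupConv μ (j a) (j b)
  /-- `A` is dense in `L¹(G)` -/
  dense : DenseRange j
  /-- `A` is a left ideal of `L¹(G)` -/
  left_ideal : ∀ (f : Lp ℂ 1 μ) (a : A), ∃ b : A, j b =ᵐ[μ] groupConv μ f (j a)
  /-- the norm of `A` dominates the `L¹` norm -/
  norm_le : ∀ a : A, ‖j a‖ ≤ ‖a‖
  /-- `A` is closed under left translation, which is isometric and continuous for its norm -/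
  translation : ∃ L : G → A → A,
    (∀ x a, j (L x a) =ᵐ[μ] fun y => j a (x⁻¹ * y)) ∧
    (∀ x a, ‖L x a‖ = ‖a‖) ∧
    (∀ a, Continuous fun x => L x a)

end Groups

section Tensor

variable (E : Type*) [NormedAddCommGroup E] [NormedSpace ℂ E]

/-- The algebraic tensor product `E ⊗ E`, which Mathlib equips with the projective tensor
norm. -/
abbrev AlgSquare : Type _ := ⨂[ℂ] _ : Fin 2, E

/-- The projective tensor square of `E`: the completion of the algebraic tensor product `E ⊗ E`
for the projective tensor norm. -/
abbrev ProjSquare : Type _ := UniformSpace.Completion (AlgSquare E)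

variable {E}

/-- The map `f ⊗ g` on the algebraic tensor product, `b ⊗ c ↦ f b ⊗ g c`. -/
noncomputable def algMap (f g : E →L[ℂ] E) : AlgSquare E → AlgSquare E :=
  PiTensorProduct.mapL (𝕜 := ℂ) (E := fun _ : Fin 2 => E) (E' := fun _ : Fin 2 => E) ![f, g]

/-- The continuous extension of `f ⊗ g` to the projective tensor square. -/
noncomputable def projMap (f g : E →L[ℂ] E) : ProjSquare E → ProjSquare E :=
  UniformSpace.Completion.map (algMap f g)

/-- A continuous bilinear map `B`, as a continuous multilinear map `v ↦ B (v 0) (v 1)`. -/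
noncomputable def toMultilinear (B : E →L[ℂ] E →L[ℂ] E) :
    ContinuousMultilinearMap ℂ (fun _ : Fin 2 => E) E where
  toFun v := B (v 0) (v 1)
  map_update_add' := by
    intro _ v i x y
    fin_cases i <;> simp
  map_update_smul' := by
    intro _ v i c x
    fin_cases i <;> simp
  cont := by fun_prop

/-- The linear map `b ⊗ c ↦ B b c` on the algebraic tensor product. -/
noncomputable def algLift (B : E →L[ℂ] E →L[ℂ] E) : AlgSquare E → E :=
  PiTensorProduct.lift (toMultilinear B).toMultilinearMap

/-- The continuous extension of `b ⊗ c ↦ B b c` to the projective tensor square. -/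
noncomputable def projLift (B : E →L[ℂ] E →L[ℂ] E) : ProjSquare E → E :=
  UniformSpace.Completion.extension (algLift B)

variable (A : Type*) [NonUnitalNormedRing A] [NormedSpace ℂ A] [IsScalarTower ℂ A A]
  [SMulCommClass ℂ A A]

variable {A} in
/-- Left module action on the projective tensor square, `a · (b ⊗ c) = (a b) ⊗ c`. -/
noncomputable def lact (a : A) : ProjSquare A → ProjSquare A :=
  projMap (ContinuousLinearMap.mul ℂ A a) (ContinuousLinearMap.id ℂ A)

variable {A} in
/-- Right module action on the projective tensor square, `(b ⊗ c) · a = b ⊗ (c a)`. -/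
noncomputable def ract (a : A) : ProjSquare A → ProjSquare A :=
  projMap (ContinuousLinearMap.id ℂ A) ((ContinuousLinearMap.mul ℂ A).flip a)

/-- The product map `π` on the projective tensor square, `π (b ⊗ c) = b c`. -/
noncomputable def prodMap : ProjSquare A → A :=
  projLift (ContinuousLinearMap.mul ℂ A)

/-- `A` is pseudo-amenable: it has an approximate diagonal, that is, a net `u` in the projective
tensor square (given here by the proper filter it generates; no boundedness is required) with
`a · u - u · a → 0` and `π(u) a → a` for every `a` in `A`. -/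
def IsPseudoAmenable : Prop :=
  ∃ l : Filter (ProjSquare A), l.NeBot ∧ ∀ a : A,
    Tendsto (fun u => lact a u - ract a u) l (𝓝 0) ∧
    Tendsto (fun u => prodMap A u * a) l (𝓝 a)

end Tensor

end Pool.Agent.Work.MP_dc0135_an
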