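import Mathlib
import Pool.Agent.Work.MP_dc0135_an.Defs

-- merged part: Pool.Agent.Work.MP_dc0135_an.Group
section
/-! The group `{±1}^ℤ ⋊ ℤ` with its Haar measure. -/

open MeasureTheory Filter Topology
open scoped ENNReal

namespace Pool.Agent.Work.MP_dc0135_an

/-- The compact group of two-sided sign sequences. -/
def KK : Type := ℤ → ℤˣ

instance : CommGroup KK := inferInstanceAs (CommGroup (ℤ → ℤˣ))
instance : TopologicalSpace KK := inferInstanceAs (TopologicalSpace (ℤ → ℤˣ))
instance : IsTopologicalGroup KK := inferInstanceAs (IsTopologicalGroup (ℤ → ℤˣ))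
instance : CompactSpace KK := inferInstanceAs (CompactSpace (ℤ → ℤˣ))
instance : T2Space KK := inferInstanceAs (T2Space (ℤ → ℤˣ))
instance : SecondCountableTopology KK := inferInstanceAs (SecondCountableTopology (ℤ → ℤˣ))
instance : MeasurableSpace KK := borel KK
instance : BorelSpace KK := ⟨rfl⟩

/-- Coordinates. -/
def KK.co (k : KK) (j : ℤ) : ℤˣ := (show ℤ → ℤˣ from k) j

/-- Constructor. -/
def KK.mk (f : ℤ → ℤˣ) : KK := f

@[simp] theorem KK.co_mk (f : ℤ → ℤˣ) (j : ℤ) : (KK.mk f).co j = f j := rfl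
@[simp] theorem KK.co_mul (a b : KK) (j : ℤ) : (a * b).co j = a.co j * b.co j := rfl
@[simp] theorem KK.co_one (j : ℤ) : (1 : KK).co j = 1 := rfl
theorem KK.ext {a b : KK} (h : ∀ j, a.co j = b.co j) : a = b := funext h
theorem KK.continuous_co (j : ℤ) : Continuous fun k : KK => k.co j := continuous_apply j
theorem KK.continuous_of {X : Type*} [TopologicalSpace X] (f : X → KK)
    (h : ∀ j, Continuous fun x => (f x).co j) : Continuous f := continuous_pi h

/-- The shift automorphisms. -/
def sh (n : ℤ) : KK →* KK where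
  toFun k := KK.mk fun j => k.co (j + n)
  map_one' := rfl
  map_mul' _ _ := rfl

@[simp] theorem sh_co (n : ℤ) (k : KK) (j : ℤ) : (sh n k).co j = k.co (j + n) := rfl
@[simp] theorem sh_zero (k : KK) : sh 0 k = k := KK.ext fun j => by simp
theorem sh_add (m n : ℤ) (k : KK) : sh (m + n) k = sh m (sh n k) :=
  KK.ext fun j => by simp [add_assoc]
theorem continuous_sh (n : ℤ) : Continuous (sh n) :=
  KK.continuous_of _ fun j => KK.continuous_co (j + n)
theorem sh_surjective (n : ℤ) : Function.Surjective (sh n) :=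
  fun k => ⟨sh (-n) k, by rw [← sh_add]; simp⟩

/-- Normalised Haar measure on the compact group. -/
noncomputable def mK : Measure KK := Measure.haarMeasure ⊤

instance : mK.IsHaarMeasure := inferInstanceAs (Measure.haarMeasure (⊤ : TopologicalSpace.PositiveCompacts KK)).IsHaarMeasure
instance : IsProbabilityMeasure mK :=
  ⟨by simpa [mK] using Measure.haarMeasure_self (G := KK) (K₀ := ⊤)⟩

theorem measurePreserving_sh (n : ℤ) : MeasurePreserving (sh n) mK mK :=
  (sh n).measurePreserving (continuous_sh n) (sh_surjective n) rfl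

/-- The semidirect product. -/
def GG : Type := KK × ℤ

/-- Constructor. -/
def GG.mk (k : KK) (n : ℤ) : GG := (k, n)
/-- First coordinate. -/
def GG.k (x : GG) : KK := (show KK × ℤ from x).1
/-- Second coordinate. -/
def GG.n (x : GG) : ℤ := (show KK × ℤ from x).2

@[simp] theorem GG.mk_k (k : KK) (n : ℤ) : (GG.mk k n).k = k := rfl
@[simp] theorem GG.mk_n (k : KK) (n : ℤ) : (GG.mk k n).n = n := rfl
theorem GG.ext {x y : GG} (h1 : x.k = y.k) (h2 : x.n = y.n) : x = y := Prod.ext h1 h2
@[simp] theorem GG.eta (x : GG) : GG.mk x.k x.n = x := rfl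

instance : Mul GG := ⟨fun x y => GG.mk (x.k * sh x.n y.k) (x.n + y.n)⟩
instance : One GG := ⟨GG.mk 1 0⟩
instance : Inv GG := ⟨fun x => GG.mk (sh (-x.n) x.k⁻¹) (-x.n)⟩

@[simp] theorem GG.mul_k (x y : GG) : (x * y).k = x.k * sh x.n y.k := rfl
@[simp] theorem GG.mul_n (x y : GG) : (x * y).n = x.n + y.n := rfl
@[simp] theorem GG.one_k : (1 : GG).k = 1 := rfl
@[simp] theorem GG.one_n : (1 : GG).n = 0 := rfl
@[simp] theorem GG.inv_k (x : GG) : x⁻¹.k = sh (-x.n) x.k⁻¹ := rfl
@[simp] theorem GG.inv_n (x : GG) : x⁻¹.n = -x.n := rfl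

instance : Group GG :=
  Group.ofLeftAxioms
    (fun x y z => GG.ext (by simp [sh_add, mul_assoc]) (by simp [add_assoc]))
    (fun x => GG.ext (by simp) (by simp))
    (fun x => GG.ext (by simp) (by simp))

instance : TopologicalSpace GG := inferInstanceAs (TopologicalSpace (KK × ℤ))
instance : LocallyCompactSpace GG := inferInstanceAs (LocallyCompactSpace (KK × ℤ))
instance : T2Space GG := inferInstanceAs (T2Space (KK × ℤ))
instance : SecondCountableTopology GG := inferInstanceAs (SecondCountableTopology (KK × ℤ))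
instance : MeasurableSpace GG := inferInstanceAs (MeasurableSpace (KK × ℤ))
instance : BorelSpace GG := inferInstanceAs (BorelSpace (KK × ℤ))

theorem GG.continuous_k : Continuous GG.k := continuous_fst
theorem GG.continuous_n : Continuous GG.n := continuous_snd
theorem GG.continuous_mk {X : Type*} [TopologicalSpace X] {f : X → KK} {g : X → ℤ}
    (hf : Continuous f) (hg : Continuous g) : Continuous fun x => GG.mk (f x) (g x) :=
  hf.prodMk hg

theorem continuous_sh₂ : Continuous fun p : ℤ × KK => sh p.1 p.2 :=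
  continuous_prod_of_discrete_left.2 fun n => continuous_sh n

instance : IsTopologicalGroup GG where
  continuous_mul := GG.continuous_mk
    ((GG.continuous_k.comp continuous_fst).mul (continuous_sh₂.comp
      ((GG.continuous_n.comp continuous_fst).prodMk (GG.continuous_k.comp continuous_snd))))
    ((GG.continuous_n.comp continuous_fst).add (GG.continuous_n.comp continuous_snd))
  continuous_inv := GG.continuous_mk
    (continuous_sh₂.comp (GG.continuous_n.neg.prodMk GG.continuous_k.inv)) GG.continuous_n.neg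

/-- The affine action of the semidirect product on the compact group. -/
def aff (x : GG) : C(KK, KK) :=
  ⟨fun k => x.k * sh x.n k, continuous_const.mul (continuous_sh x.n)⟩

theorem aff_apply (x : GG) (k : KK) : aff x k = x.k * sh x.n k := rfl
theorem aff_mul (x y : GG) (k : KK) : aff (x * y) k = aff x (aff y k) := by
  simp [aff_apply, sh_add, mul_assoc]
theorem aff_one (k : KK) : aff 1 k = k := by simp [aff_apply]
theorem aff_k (x y : GG) : aff x y.k = (x * y).k := rfl
theorem aff_surjective (x : GG) : Function.Surjective (aff x) :=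
  fun k => ⟨aff x⁻¹ k, by rw [← aff_mul, mul_inv_cancel, aff_one]⟩
theorem continuous_aff : Continuous aff := by
  apply ContinuousMap.continuous_of_continuous_uncurry
  exact (GG.continuous_k.comp continuous_fst).mul (continuous_sh₂.comp
      ((GG.continuous_n.comp continuous_fst).prodMk continuous_snd))
theorem measurePreserving_aff (x : GG) : MeasurePreserving (aff x) mK mK :=
  (measurePreserving_mul_left mK x.k).comp (measurePreserving_sh x.n)

theorem aff_injective (x : GG) : Function.Injective (aff x) :=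
  Function.LeftInverse.injective (g := aff x⁻¹) fun k => by
    rw [← aff_mul, inv_mul_cancel, aff_one]
theorem integral_aff {E : Type*} [NormedAddCommGroup E] [NormedSpace ℝ E] (x : GG) (g : KK → E) :
    ∫ k, g (aff x k) ∂mK = ∫ k, g k ∂mK :=
  (measurePreserving_aff x).integral_comp
    ((aff x).continuous.isClosedEmbedding (aff_injective x)).measurableEmbedding g

instance : IsFiniteMeasureOnCompacts (Measure.count : Measure ℤ) :=
  ⟨fun _ hK => Measure.count_apply_lt_top.2 hK.finite_of_discrete⟩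
instance : (Measure.count : Measure ℤ).IsOpenPosMeasure :=
  ⟨fun _ _ hU => Measure.count_ne_zero hU⟩

/-- Haar measure on the semidirect product. -/
noncomputable def mG : Measure GG := (mK.prod Measure.count : Measure (KK × ℤ))

instance : mG.IsHaarMeasure where
  toIsFiniteMeasureOnCompacts :=
    inferInstanceAs (IsFiniteMeasureOnCompacts (mK.prod (Measure.count : Measure ℤ)))
  toIsOpenPosMeasure :=
    inferInstanceAs (Measure.IsOpenPosMeasure (mK.prod (Measure.count : Measure ℤ)))
  map_mul_left_eq_self x :=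
    ((measurePreserving_aff x).prod (measurePreserving_add_left Measure.count x.n)).map_eq

theorem measurableSet_slice (n : ℤ) : MeasurableSet {y : GG | y.n = n} :=
  (isClosed_eq GG.continuous_n continuous_const).measurableSet

theorem measurableEmbedding_slice (n : ℤ) : MeasurableEmbedding fun k => GG.mk k n :=
  measurableEmbedding_prod_mk_right n

theorem restrict_slice (n : ℤ) :
    mG.restrict {y : GG | y.n = n} = mK.map fun k => GG.mk k n := by
  have h1 : (mK.prod (Measure.count : Measure ℤ)).restrict (Set.univ ×ˢ {n}) =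
      mK.map fun k => (k, n) := by
    rw [← Measure.prod_restrict, Measure.restrict_univ, Measure.restrict_singleton,
      Measure.count_singleton, one_smul, Measure.prod_dirac]
  have h2 : {y : GG | y.n = n} = (Set.univ ×ˢ {n} : Set (KK × ℤ)) := by
    ext y
    exact ⟨fun h => ⟨trivial, h⟩, fun h => h.2⟩
  rw [h2]
  exact h1

theorem integral_slice (F : GG → ℂ) (n : ℤ) :
    ∫ y in {y : GG | y.n = n}, F y ∂mG = ∫ k, F (GG.mk k n) ∂mK := by
  rw [restrict_slice, (measurableEmbedding_slice n).integral_map]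

theorem integrableOn_slice (F : GG → ℂ) (n : ℤ) :
    IntegrableOn F {y : GG | y.n = n} mG ↔ Integrable (fun k => F (GG.mk k n)) mK := by
  rw [IntegrableOn, restrict_slice, (measurableEmbedding_slice n).integrable_map_iff]
  rfl

theorem ae_slice {p : GG → Prop} (h : ∀ᵐ y ∂mG, p y) (n : ℤ) : ∀ᵐ k ∂mK, p (GG.mk k n) := by
  have h1 : ∀ᵐ y ∂(mG.restrict {y : GG | y.n = n}), p y := ae_restrict_of_ae h
  rw [restrict_slice] at h1
  exact ae_of_ae_map (measurableEmbedding_slice n).measurable.aemeasurable h1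

end Pool.Agent.Work.MP_dc0135_an
end

-- merged part: Pool.Agent.Work.MP_dc0135_an.Amenable
section
/-! The group `{±1}^ℤ ⋊ ℤ` is amenable. -/

open MeasureTheory Filter Topology
open scoped ENNReal ComplexOrder

namespace Pool.Agent.Work.MP_dc0135_an

theorem ae_norm_le_Linf {X : Type*} [MeasurableSpace X] {μ : Measure X} (φ : Lp ℂ ∞ μ) :
    ∀ᵐ y ∂μ, ‖φ y‖ ≤ ‖φ‖ := by
  filter_upwards [ae_le_eLpNormEssSup (f := (φ : X → ℂ)) (μ := μ)] with y hy
  have h1 : eLpNormEssSup (φ : X → ℂ) μ ≠ ∞ := by
    simpa using Lp.eLpNorm_ne_top φ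
  rw [Lp.norm_def, eLpNorm_exponent_top, ← toReal_enorm]
  exact ENNReal.toReal_mono h1 hy

theorem integrable_Linf_slice (φ : Lp ℂ ∞ mG) (n : ℤ) :
    Integrable (fun k => φ (GG.mk k n)) mK := by
  have h1 : AEStronglyMeasurable (fun k => φ (GG.mk k n)) mK :=
    ((Lp.stronglyMeasurable φ).comp_measurable
      (measurableEmbedding_slice n).measurable).aestronglyMeasurable
  exact Integrable.of_bound h1 ‖φ‖ (ae_slice (ae_norm_le_Linf φ) n)

theorem norm_slice_le (φ : Lp ℂ ∞ mG) (n : ℤ) : ‖∫ k, φ (GG.mk k n) ∂mK‖ ≤ ‖φ‖ := by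
  simpa using norm_integral_le_of_norm_le_const (ae_slice (ae_norm_le_Linf φ) n)

/-- Integration over one coset of the compact open subgroup. -/
noncomputable def sliceInt (n : ℤ) : Lp ℂ ∞ mG →L[ℂ] ℂ :=
  LinearMap.mkContinuous
    { toFun := fun φ => ∫ k, φ (GG.mk k n) ∂mK
      map_add' := fun φ ψ => by
        rw [← integral_add (integrable_Linf_slice φ n) (integrable_Linf_slice ψ n)]
        exact integral_congr_ae (ae_slice (Lp.coeFn_add φ ψ) n)
      map_smul' := fun c φ => by
        simp only [RingHom.id_apply]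
        rw [← integral_smul]
        exact integral_congr_ae (ae_slice (Lp.coeFn_smul c φ) n) }
    1 (fun φ => by simpa using norm_slice_le φ n)

theorem sliceInt_apply (n : ℤ) (φ : Lp ℂ ∞ mG) : sliceInt n φ = ∫ k, φ (GG.mk k n) ∂mK := rfl

theorem sliceInt_translate (x : GG) (φ ψ : Lp ℂ ∞ mG) (h : ψ =ᵐ[mG] fun y => φ (x⁻¹ * y))
    (n : ℤ) : sliceInt n ψ = sliceInt (n + -x.n) φ := by
  rw [sliceInt_apply, sliceInt_apply, integral_congr_ae (ae_slice h n),
    ← integral_aff x⁻¹ (fun k => φ (GG.mk k (n + -x.n)))]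
  refine integral_congr_ae (Eventually.of_forall fun k => ?_)
  have : x⁻¹ * GG.mk k n = GG.mk (aff x⁻¹ k) (n + -x.n) :=
    GG.ext (by simp [aff_apply]) (by simp [add_comm])
  simp only [this]

theorem norm_sum_shift_le (b : ℤ → ℂ) (C : ℝ) (hb : ∀ n, ‖b n‖ ≤ C) (M : ℕ) (d : ℤ) :
    ‖∑ n ∈ Finset.range M, b (n + d) - ∑ n ∈ Finset.range M, b n‖ ≤ 2 * C * |(d : ℝ)| := by
  have step : ∀ e : ℤ,
      ‖∑ n ∈ Finset.range M, b (n + (e + 1)) - ∑ n ∈ Finset.range M, b (n + e)‖ ≤ 2 * C := by
    intro e
    rw [← Finset.sum_sub_distrib]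
    have := Finset.sum_range_sub (fun n : ℕ => b (n + e)) M
    have h2 : ∑ n ∈ Finset.range M, (b (n + (e + 1)) - b (n + e)) = b (M + e) - b ((0 : ℕ) + e) := by
      rw [← this]
      refine Finset.sum_congr rfl fun n _ => ?_
      congr 2
      push_cast; ring
    rw [h2]
    calc _ ≤ ‖b (M + e)‖ + ‖b ((0 : ℕ) + e)‖ := norm_sub_le _ _
      _ ≤ C + C := add_le_add (hb _) (hb _)
      _ = 2 * C := by ring
  induction d using Int.induction_on with
  | zero => simp
  | succ d ih =>
    have h1 := step d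
    have h2 := norm_sub_le_norm_sub_add_norm_sub (∑ n ∈ Finset.range M, b (n + (d + 1)))
      (∑ n ∈ Finset.range M, b (n + d)) (∑ n ∈ Finset.range M, b n)
    have h3 : |(((d : ℤ) + 1 : ℤ) : ℝ)| = |((d : ℤ) : ℝ)| + 1 := by
      push_cast
      rw [abs_of_nonneg (by positivity), abs_of_nonneg (by positivity)]
    rw [h3]
    linarith
  | pred d ih =>
    have h1 := step (-d - 1)
    rw [norm_sub_rev, show -(d : ℤ) - 1 + 1 = -d by ring] at h1
    have h2 := norm_sub_le_norm_sub_add_norm_sub (∑ n ∈ Finset.range M, b (n + (-d - 1)))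
      (∑ n ∈ Finset.range M, b (n + -d)) (∑ n ∈ Finset.range M, b n)
    have h3 : |((-(d : ℤ) - 1 : ℤ) : ℝ)| = |((-(d : ℤ) : ℤ) : ℝ)| + 1 := by
      push_cast
      have : (0 : ℝ) ≤ d := by positivity
      rw [abs_of_nonpos (by linarith), abs_of_nonpos (by linarith)]
      ring
    rw [h3]
    linarith

/-- Averages over the Følner sets. -/
noncomputable def avg (N : ℕ) : Lp ℂ ∞ mG →L[ℂ] ℂ :=
  ((N + 1 : ℕ) : ℂ)⁻¹ • ∑ n ∈ Finset.range (N + 1), sliceInt n

theorem avg_apply (N : ℕ) (φ : Lp ℂ ∞ mG) :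
    avg N φ = ((N + 1 : ℕ) : ℂ)⁻¹ * ∑ n ∈ Finset.range (N + 1), sliceInt n φ := by
  simp [avg]

theorem norm_avg_le (N : ℕ) : ‖avg N‖ ≤ 1 := by
  refine ContinuousLinearMap.opNorm_le_bound _ zero_le_one fun φ => ?_
  rw [avg_apply, norm_mul, norm_inv, Complex.norm_natCast, one_mul]
  have h1 : ‖∑ n ∈ Finset.range (N + 1), sliceInt n φ‖ ≤ ((N + 1 : ℕ) : ℝ) * ‖φ‖ := by
    refine (norm_sum_le _ _).trans ?_
    have := Finset.sum_le_card_nsmul (Finset.range (N + 1)) (fun n : ℕ => ‖sliceInt n φ‖) ‖φ‖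
      (fun n _ => norm_slice_le φ n)
    simpa using this
  rw [inv_mul_le_iff₀ (by positivity)]
  exact h1

theorem isAmenable_GG : IsAmenable mG := by
  let U : Ultrafilter ℕ := Ultrafilter.of atTop
  have hU : (U : Filter ℕ) ≤ atTop := Ultrafilter.of_le _
  let w : ℕ → WeakDual ℂ (Lp ℂ ∞ mG) := fun N => StrongDual.toWeakDual (avg N)
  have hc := WeakDual.isCompact_closedBall (𝕜 := ℂ) (E := Lp ℂ ∞ mG) 0 1
  obtain ⟨m, -, hm⟩ := hc.ultrafilter_le_nhds' (U.map w) (by
    rw [Ultrafilter.mem_map]
    refine Filter.univ_mem' fun N => ?_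
    simpa [w] using norm_avg_le N)
  have hev : ∀ φ, Tendsto (fun N => avg N φ) U (𝓝 (m φ)) := fun φ =>
    ((WeakDual.eval_continuous φ).tendsto m).comp hm
  refine ⟨(WeakDual.toStrongDual m).toLinearMap, fun φ => ?_, fun φ hφ => ?_, fun φ hφ => ?_,
    fun x φ ψ h => ?_⟩
  · refine le_of_tendsto' (hev φ).norm fun N => ?_
    simpa using (avg N).le_of_opNorm_le (norm_avg_le N) φ
  · refine ge_of_tendsto' (hev φ) fun N => ?_
    rw [avg_apply]
    refine mul_nonneg (by positivity) (Finset.sum_nonneg fun n _ => ?_)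
    exact integral_nonneg_of_ae (ae_slice hφ n)
  · refine tendsto_nhds_unique (hev φ) ?_
    have : ∀ N, avg N φ = 1 := by
      intro N
      have h1 : ∀ n : ℤ, sliceInt n φ = 1 := fun n => by
        rw [sliceInt_apply, integral_congr_ae (ae_slice hφ n)]
        simp
      rw [avg_apply]
      simp only [h1, Finset.sum_const, Finset.card_range, nsmul_eq_mul, mul_one]
      exact inv_mul_cancel₀ (by exact_mod_cast Nat.succ_ne_zero N)
    simp only [this]
    exact tendsto_const_nhds
  · have h1 : Tendsto (fun N => avg N ψ - avg N φ) atTop (𝓝 0) := by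
      have h2 : Tendsto (fun N : ℕ => (2 * ‖φ‖ * |((-x.n : ℤ) : ℝ)|) / ((N + 1 : ℕ) : ℝ))
          atTop (𝓝 0) :=
        (tendsto_const_div_atTop_nhds_zero_nat _).comp (tendsto_add_atTop_nat 1)
      refine squeeze_zero_norm (fun N => ?_) h2
      rw [avg_apply, avg_apply, ← mul_sub, norm_mul, norm_inv, Complex.norm_natCast,
        ← div_eq_inv_mul]
      simp only [sliceInt_translate x φ ψ h]
      gcongr
      exact norm_sum_shift_le (fun n => sliceInt n φ) ‖φ‖ (fun n => norm_slice_le φ n) _ _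
    have h3 := tendsto_nhds_unique ((hev ψ).sub (hev φ)) (h1.mono_left hU)
    exact sub_eq_zero.1 h3

end Pool.Agent.Work.MP_dc0135_an
end
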