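import Pool.Agent.Work.MP_dc0135_an.Tensor
import Pool.Agent.Work.MP_dc0135_an.Amenable

-- merged part: Pool.Agent.Work.MP_dc0135_an.Algebra
section
/-! The Segal algebra of those `f ∈ L¹(G)` whose push-forward to `G/ℤ` is continuous. -/

open MeasureTheory Filter Topology
open scoped ENNReal

namespace Pool.Agent.Work.MP_dc0135_an

theorem integrable_cont {E : Type*} [NormedAddCommGroup E] {u : KK → E} (hu : Continuous u) :
    Integrable u mK :=
  hu.integrable_of_hasCompactSupport (HasCompactSupport.of_compactSpace u)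

/-- The function equal to `u` on the coset number `n` and to zero elsewhere. -/
noncomputable def eFun (u : KK → ℂ) (n : ℤ) : GG → ℂ :=
  {y : GG | y.n = n}.indicator fun y => u y.k

theorem integrable_eFun (u : C(KK, ℂ)) (n : ℤ) : Integrable (eFun u n) mG := by
  rw [eFun, integrable_indicator_iff (measurableSet_slice n), integrableOn_slice]
  exact integrable_cont u.continuous

/-- The class of `eFun u n` in `L¹(G)`. -/
noncomputable def eL (u : C(KK, ℂ)) (n : ℤ) : Lp ℂ 1 mG := (integrable_eFun u n).toL1 _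

theorem eL_ae (u : C(KK, ℂ)) (n : ℤ) : eL u n =ᵐ[mG] eFun u n := Integrable.coeFn_toL1 _

theorem integral_eL_mul (u : C(KK, ℂ)) (n : ℤ) (Ψ : GG → ℂ) :
    ∫ y, eL u n y * Ψ y ∂mG = ∫ k, u k * Ψ (GG.mk k n) ∂mK := by
  have h1 : ∫ y, eL u n y * Ψ y ∂mG =
      ∫ y, {y : GG | y.n = n}.indicator (fun y => u y.k * Ψ y) y ∂mG := by
    refine integral_congr_ae ?_
    filter_upwards [eL_ae u n] with y hy
    rw [hy, eFun, Set.indicator_mul_left]
  rw [h1, integral_indicator (measurableSet_slice n), integral_slice]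
  rfl

theorem norm_eL (u : C(KK, ℂ)) (n : ℤ) : ‖eL u n‖ = ∫ k, ‖u k‖ ∂mK := by
  rw [L1.norm_eq_integral_norm]
  have h1 : ∫ y, ‖eL u n y‖ ∂mG =
      ∫ y, {y : GG | y.n = n}.indicator (fun y => ‖u y.k‖) y ∂mG := by
    refine integral_congr_ae ?_
    filter_upwards [eL_ae u n] with y hy
    rw [hy, eFun, norm_indicator_eq_indicator_norm]
  rw [h1, integral_indicator (measurableSet_slice n), restrict_slice,
    (measurableEmbedding_slice n).integral_map]
  rfl

/-- Pairing of `f` with `y ↦ ψ(y · 1)`. -/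
noncomputable def PP (ψ : C(KK, ℂ)) : Lp ℂ 1 mG →L[ℂ] ℂ :=
  pair mG (fun y => ψ y.k) (ψ.continuous.comp GG.continuous_k).aestronglyMeasurable ‖ψ‖
    (fun y => ψ.norm_coe_le_norm y.k)

/-- Pairing of `f` with `y ↦ ψ(y⁻¹ · 1)`. -/
noncomputable def QQ (ψ : C(KK, ℂ)) : Lp ℂ 1 mG →L[ℂ] ℂ :=
  pair mG (fun y => ψ y⁻¹.k)
    (ψ.continuous.comp (GG.continuous_k.comp continuous_inv)).aestronglyMeasurable ‖ψ‖
    (fun y => ψ.norm_coe_le_norm y⁻¹.k)

/-- Pairing on the compact group. -/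
noncomputable def II (ψ : C(KK, ℂ)) : C(KK, ℂ) →L[ℂ] ℂ :=
  (pair mK ψ ψ.continuous.aestronglyMeasurable ‖ψ‖ ψ.norm_coe_le_norm).comp
    (ContinuousMap.toLp 1 mK ℂ)

theorem PP_apply (ψ : C(KK, ℂ)) (f : Lp ℂ 1 mG) : PP ψ f = ∫ y, f y * ψ y.k ∂mG := rfl
theorem QQ_apply (ψ : C(KK, ℂ)) (f : Lp ℂ 1 mG) : QQ ψ f = ∫ y, f y * ψ y⁻¹.k ∂mG := rfl
theorem II_apply (ψ h : C(KK, ℂ)) : II ψ h = ∫ k, h k * ψ k ∂mK := by
  rw [II, ContinuousLinearMap.comp_apply, pair_apply]
  refine integral_congr_ae ?_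
  filter_upwards [ContinuousMap.coeFn_toLp (p := 1) (𝕜 := ℂ) mK h] with k hk
  rw [hk]

theorem PP_eL (ψ u : C(KK, ℂ)) (n : ℤ) : PP ψ (eL u n) = II ψ u := by
  rw [PP_apply, integral_eL_mul, II_apply]
  rfl

/-- Pairs `(f, h)` where `h` is a continuous density of the push-forward of `f`. -/
noncomputable def AA : Submodule ℂ (Lp ℂ 1 mG × C(KK, ℂ)) where
  carrier := {p | ∀ ψ, PP ψ p.1 = II ψ p.2}
  add_mem' := fun {p q} hp hq ψ => by simp [hp ψ, hq ψ]
  zero_mem' := fun ψ => by simp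
  smul_mem' := fun c p hp ψ => by simp [hp ψ]

theorem isClosed_AA : IsClosed (AA : Set (Lp ℂ 1 mG × C(KK, ℂ))) := by
  have : (AA : Set (Lp ℂ 1 mG × C(KK, ℂ))) = ⋂ ψ, {p | PP ψ p.1 = II ψ p.2} := by
    ext p
    simp only [Set.mem_iInter]
    rfl
  rw [this]
  exact isClosed_iInter fun ψ => isClosed_eq (by fun_prop) (by fun_prop)

instance : CompleteSpace AA := isClosed_AA.completeSpace_coe

/-- Translation of continuous functions on the compact group. -/
noncomputable def TT (x : GG) : C(KK, ℂ) →L[ℂ] C(KK, ℂ) :=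
  ⟨(ContinuousMap.compRightAlgHom ℂ ℂ (aff x⁻¹)).toLinearMap,
    ContinuousMap.compRightAlgHom_continuous ℂ ℂ (aff x⁻¹)⟩

theorem TT_eq (x : GG) (h : C(KK, ℂ)) : TT x h = h.comp (aff x⁻¹) := rfl
theorem TT_apply (x : GG) (h : C(KK, ℂ)) (k : KK) : TT x h k = h (aff x⁻¹ k) := rfl

theorem norm_TT (x : GG) (h : C(KK, ℂ)) : ‖TT x h‖ = ‖h‖ := by
  rw [ContinuousMap.norm_eq_iSup_norm, ContinuousMap.norm_eq_iSup_norm]
  exact (aff_surjective x⁻¹).iSup_comp fun k => ‖h k‖

theorem TT_mul (x y : GG) (h : C(KK, ℂ)) : TT (x * y) h = TT x (TT y h) := by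
  ext k
  simp only [TT_apply, mul_inv_rev, aff_mul]

theorem continuous_TT (h : C(KK, ℂ)) : Continuous fun x => TT x h :=
  (ContinuousMap.continuous_postcomp h).comp (continuous_aff.comp continuous_inv)

theorem translate_mem (x : GG) (p : Lp ℂ 1 mG × C(KK, ℂ)) (hp : p ∈ AA) :
    ((LL mG x).prodMap (TT x)) p ∈ AA := by
  intro ψ
  change PP ψ (LL mG x p.1) = II ψ (TT x p.2)
  have h1 : PP ψ (LL mG x p.1) = PP (ψ.comp (aff x)) p.1 := by
    rw [PP_apply, PP_apply]
    have h2 : ∫ y, LL mG x p.1 y * ψ y.k ∂mG = ∫ y, p.1 (x⁻¹ * y) * ψ y.k ∂mG := by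
      refine integral_congr_ae ?_
      filter_upwards [LL_ae mG x p.1] with y hy
      rw [hy]
    rw [h2, ← integral_mul_left_eq_self (fun y => p.1 (x⁻¹ * y) * ψ y.k) x]
    simp only [inv_mul_cancel_left, ContinuousMap.comp_apply, aff_k]
  rw [h1, hp, II_apply, II_apply, ← integral_aff x (fun k => TT x p.2 k * ψ k)]
  simp only [TT_apply, ← aff_mul, inv_mul_cancel, aff_one, ContinuousMap.comp_apply]

/-- The translation representation on `AA`. -/
noncomputable def repA : IsoRep GG AA where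
  ρ x := (((LL mG x).prodMap (TT x)).comp AA.subtypeL).codRestrict AA
    fun p => translate_mem x p p.2
  map_mul x y v := Subtype.ext (Prod.ext (LL_mul mG x y v.1.1) (TT_mul x y v.1.2))
  norm_eq x v := by
    change max ‖LL mG x v.1.1‖ ‖TT x v.1.2‖ = max ‖v.1.1‖ ‖v.1.2‖
    rw [norm_LL, norm_TT]
  cont v := continuous_induced_rng.2 ((continuous_LL mG v.1.1).prodMk (continuous_TT v.1.2))

/-- The embedding in `L¹(G)`. -/
noncomputable def jA : AA →L[ℂ] Lp ℂ 1 mG :=
  (ContinuousLinearMap.fst ℂ _ _).comp AA.subtypeL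

theorem jA_injective : Function.Injective jA := by
  rw [injective_iff_map_eq_zero]
  rintro ⟨⟨f, h⟩, hp⟩ hf
  obtain rfl : f = 0 := hf
  have h1 := hp (star h)
  rw [map_zero, II_apply] at h1
  have h2 : ∫ k, ‖h k‖ ^ 2 ∂mK = 0 := by
    have h3 : ∀ k, h k * (star h) k = ((‖h k‖ ^ 2 : ℝ) : ℂ) := fun k => by
      simp [Complex.mul_conj, Complex.normSq_eq_norm_sq]
    simp only [h3] at h1
    rw [integral_complex_ofReal] at h1
    exact_mod_cast h1.symm
  have hc : Continuous fun k => ‖h k‖ ^ 2 := by fun_prop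
  rw [integral_eq_zero_iff_of_nonneg (fun k => by positivity) (integrable_cont hc)] at h2
  have h4 := (hc.ae_eq_iff_eq mK continuous_zero).1 h2
  have h5 : h = 0 := by
    ext k
    simpa using congrFun h4 k
  subst h5
  rfl

theorem eL_mem_range (u : C(KK, ℂ)) (n : ℤ) : eL u n ∈ LinearMap.range jA.toLinearMap :=
  ⟨⟨(eL u n, u), fun ψ => PP_eL ψ u n⟩, rfl⟩

theorem jA_dense : DenseRange jA := by
  refine Metric.denseRange_iff.2 fun f ε hε => ?_
  obtain ⟨g, hg1, hg2, hg3, hg4⟩ :=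
    (L1.integrable_coeFn f).exists_hasCompactSupport_integral_sub_le (half_pos hε)
  have hfin : (GG.n '' tsupport g).Finite :=
    (hg1.isCompact.image GG.continuous_n).finite_of_discrete
  let u : ℤ → C(KK, ℂ) := fun n =>
    ⟨fun k => g (GG.mk k n), hg3.comp (GG.continuous_mk continuous_id continuous_const)⟩
  have hsum : (∑ n ∈ hfin.toFinset, eL (u n) n : Lp ℂ 1 mG) =ᵐ[mG] g := by
    have h1 : ∀ᵐ y ∂mG, ∀ n, eL (u n) n y = eFun (u n) n y := ae_all_iff.2 fun n => eL_ae _ n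
    filter_upwards [Lp.coeFn_finsetSum hfin.toFinset fun n => eL (u n) n, h1] with y hy hy'
    rw [hy, Finset.sum_apply]
    simp only [hy']
    rw [Finset.sum_eq_single y.n]
    · simp [eFun, u]
    · intro n _ hn
      simp [eFun, Ne.symm hn]
    · intro hn
      have : y ∉ tsupport g := fun hy => hn (by simpa using ⟨y, hy, rfl⟩)
      simp [eFun, u, image_eq_zero_of_notMem_tsupport this]
  obtain ⟨a, ha⟩ : (∑ n ∈ hfin.toFinset, eL (u n) n) ∈ LinearMap.range jA.toLinearMap :=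
    Submodule.sum_mem _ fun n _ => eL_mem_range _ n
  refine ⟨a, ?_⟩
  have ha' : jA a = ∑ n ∈ hfin.toFinset, eL (u n) n := ha
  rw [ha', L1.dist_eq_integral_dist]
  refine lt_of_le_of_lt (le_of_eq_of_le ?_ hg2) (half_lt_self hε)
  refine integral_congr_ae ?_
  filter_upwards [hsum] with y hy
  rw [hy, dist_eq_norm]

/-- The Segal algebra data. -/
noncomputable def segalData : SegalData mG AA where
  j := jA
  R := repA
  equiv _ _ := rfl
  norm_le _ := le_max_left _ _
  inj := jA_injective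
  dense := jA_dense

/-- Evaluation of the continuous density at the identity. -/
noncomputable def phiA : AA →L[ℂ] ℂ :=
  (ContinuousMap.evalCLM ℂ (1 : KK)).comp ((ContinuousLinearMap.snd ℂ _ _).comp AA.subtypeL)

theorem phiA_apply (a : AA) : phiA a = a.1.2 1 := rfl

theorem phiA_act (f : Lp ℂ 1 mG) (b : AA) : phiA (act mG repA f b) = QQ b.1.2 f := by
  rw [clm_act, QQ_apply]
  refine integral_congr_ae (Eventually.of_forall fun y => ?_)
  change f y * b.1.2 (aff y⁻¹ 1) = f y * b.1.2 y⁻¹.k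
  simp [aff_apply]

end Pool.Agent.Work.MP_dc0135_an
end

-- merged part: Pool.Agent.Work.MP_dc0135_an.Element
section
/-! The element `a` of the Segal algebra that is not in the closure of `a * S`. -/

open MeasureTheory Filter Topology
open scoped ENNReal

namespace Pool.Agent.Work.MP_dc0135_an

/-- Rademacher functions. -/
noncomputable def rad (j : ℤ) (k : KK) : ℝ := ((k.co j : ℤ) : ℝ)

theorem continuous_rad (j : ℤ) : Continuous (rad j) :=
  (continuous_of_discreteTopology (f := fun u : ℤˣ => ((u : ℤ) : ℝ))).comp (KK.continuous_co j)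

theorem rad_mul_self (j : ℤ) (k : KK) : rad j k * rad j k = 1 := by
  unfold rad
  rw [← Int.cast_mul, Int.units_coe_mul_self, Int.cast_one]

theorem rad_sh (j n : ℤ) (k : KK) : rad j (sh n k) = rad (j + n) k := rfl

theorem rad_one (j : ℤ) : rad j 1 = 1 := by simp [rad]

theorem integral_rad_mul (i j : ℤ) :
    ∫ k, rad i k * rad j k ∂mK = if i = j then 1 else 0 := by
  split_ifs with h
  · subst h
    simp [rad_mul_self]
  · let s : KK := KK.mk fun l => if l = i then -1 else 1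
    have h1 := integral_mul_left_eq_self (μ := mK) (fun k => rad i k * rad j k) s
    have h2 : ∀ k, rad i (s * k) * rad j (s * k) = -(rad i k * rad j k) := fun k => by
      simp [rad, s, Ne.symm h]
    simp only [h2, integral_neg] at h1
    linarith

/-- Sums of Rademacher functions. -/
noncomputable def radSum (N : ℕ) (k : KK) : ℝ := ∑ j ∈ Finset.range N, rad j k

theorem continuous_radSum (N : ℕ) : Continuous (radSum N) :=
  continuous_finsetSum _ fun j _ => continuous_rad j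

theorem integral_radSum_sq (N : ℕ) : ∫ k, radSum N k ^ 2 ∂mK = N := by
  have h1 : ∀ k, radSum N k ^ 2 =
      ∑ i ∈ Finset.range N, ∑ j ∈ Finset.range N, rad i k * rad j k := fun k => by
    rw [sq, radSum, Finset.sum_mul_sum]
  simp only [h1]
  have hc : ∀ i j : ℕ, Continuous fun k => rad i k * rad j k := fun i j =>
    (continuous_rad i).mul (continuous_rad j)
  rw [integral_finsetSum _ fun i _ => integrable_cont (continuous_finsetSum _ fun j _ => hc i j)]
  have h2 : ∀ i ∈ Finset.range N,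
      ∫ k, ∑ j ∈ Finset.range N, rad i k * rad j k ∂mK = 1 := fun i hi => by
    rw [integral_finsetSum _ fun j _ => integrable_cont (hc i j)]
    simp only [integral_rad_mul, Nat.cast_inj]
    rw [Finset.sum_ite_eq, if_pos hi]
  rw [Finset.sum_congr rfl h2]
  simp

/-- Dyadic averages of Rademacher functions. -/
noncomputable def hh (m : ℕ) : C(KK, ℂ) :=
  ⟨fun k => ((((2 : ℝ) ^ m)⁻¹ * radSum (2 ^ m) k : ℝ) : ℂ),
    Complex.continuous_ofReal.comp (continuous_const.mul (continuous_radSum _))⟩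

theorem hh_apply (m : ℕ) (k : KK) :
    hh m k = ((((2 : ℝ) ^ m)⁻¹ * radSum (2 ^ m) k : ℝ) : ℂ) := rfl

/-- The shift as a continuous map. -/
def shC (n : ℤ) : C(KK, KK) := ⟨sh n, continuous_sh n⟩

/-- The shifted dyadic average. -/
noncomputable def hh' (m : ℕ) : C(KK, ℂ) := (hh m).comp (shC (2 ^ m))

theorem hh'_apply (m : ℕ) (k : KK) : hh' m k = hh m (sh (2 ^ m) k) := rfl

theorem hh_succ (m : ℕ) : (1 / 2 : ℂ) • (hh m - hh' m) = hh m - hh (m + 1) := by
  ext k
  have h1 : radSum (2 ^ (m + 1)) k = radSum (2 ^ m) k + radSum (2 ^ m) (sh (2 ^ m) k) := by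
    rw [pow_succ, mul_two, radSum, Finset.sum_range_add]
    congr 1
    refine Finset.sum_congr rfl fun j _ => ?_
    rw [rad_sh]
    congr 1
    push_cast
    ring
  simp only [ContinuousMap.smul_apply, ContinuousMap.sub_apply, hh'_apply, hh_apply, h1,
    smul_eq_mul]
  push_cast
  field_simp
  ring

theorem hh_zero_one : hh 0 1 = 1 := by
  simp [hh_apply, radSum, rad_one]

theorem integral_sh {E : Type*} [NormedAddCommGroup E] [NormedSpace ℝ E] (n : ℤ) (g : KK → E) :
    ∫ k, g (sh n k) ∂mK = ∫ k, g k ∂mK := by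
  simpa [aff_apply] using integral_aff (GG.mk 1 n) g

theorem integral_norm_hh_le (m : ℕ) :
    ∫ k, ‖hh m k‖ ∂mK ≤ ((2 / 3 : ℝ) ^ m + (3 / 4 : ℝ) ^ m) / 2 := by
  have hp : (0 : ℝ) < (3 / 4) ^ m := by positivity
  have h1 : ∀ k, ‖hh m k‖ ≤
      ((((2 : ℝ) ^ m)⁻¹) ^ 2 / (3 / 4) ^ m * radSum (2 ^ m) k ^ 2 + (3 / 4) ^ m) / 2 := fun k => by
    rw [hh_apply, Complex.norm_real, Real.norm_eq_abs]
    set t := ((2 : ℝ) ^ m)⁻¹ * radSum (2 ^ m) k with ht
    have h2 : (((2 : ℝ) ^ m)⁻¹) ^ 2 / (3 / 4) ^ m * radSum (2 ^ m) k ^ 2 = |t| ^ 2 / (3 / 4) ^ m := by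
      rw [sq_abs, ht]; ring
    rw [h2, le_div_iff₀ two_pos, div_add' _ _ _ hp.ne', le_div_iff₀ hp]
    nlinarith [sq_nonneg (|t| - (3 / 4) ^ m)]
  have hc := continuous_radSum (2 ^ m)
  refine (integral_mono (integrable_cont (by fun_prop)) (integrable_cont (by fun_prop)) h1).trans
    (le_of_eq ?_)
  rw [integral_div, integral_add (integrable_cont (by fun_prop)) (integrable_const _),
    integral_const_mul, integral_radSum_sq]
  simp only [integral_const, probReal_univ, smul_eq_mul, one_mul]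
  congr 2
  push_cast
  simp only [div_pow]
  have h4 : (4 : ℝ) ^ m = 2 ^ m * 2 ^ m := by rw [← mul_pow]; norm_num
  rw [h4]
  field_simp

theorem summable_bound : Summable fun m : ℕ => ((2 / 3 : ℝ) ^ m + (3 / 4 : ℝ) ^ m) / 2 :=
  ((summable_geometric_of_lt_one (by norm_num) (by norm_num)).add
    (summable_geometric_of_lt_one (by norm_num) (by norm_num))).div_const 2

/-- The terms of the series. -/
noncomputable def term (m : ℕ) : Lp ℂ 1 mG :=
  (1 / 2 : ℂ) • (eL (hh m) 0 - eL (hh' m) (-2 ^ m))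

theorem norm_term_le (m : ℕ) : ‖term m‖ ≤ ((2 / 3 : ℝ) ^ m + (3 / 4 : ℝ) ^ m) / 2 := by
  have h1 : ‖eL (hh' m) (-2 ^ m)‖ = ‖eL (hh m) 0‖ := by
    rw [norm_eL, norm_eL]
    exact integral_sh (2 ^ m) fun k => ‖hh m k‖
  have h2 := norm_sub_le (eL (hh m) 0) (eL (hh' m) (-2 ^ m))
  rw [h1, norm_eL] at h2
  rw [term, norm_smul]
  have h3 := integral_norm_hh_le m
  have h4 : ‖(1 / 2 : ℂ)‖ = 1 / 2 := by simp
  rw [h4]
  linarith

theorem summable_term : Summable term := Summable.of_norm_bounded summable_bound norm_term_le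

/-- The special element of `L¹(G)`. -/
noncomputable def f0 : Lp ℂ 1 mG := ∑' m, term m

theorem QQ_term (ψ : C(KK, ℂ)) (m : ℕ) : QQ ψ (term m) = 0 := by
  rw [term, map_smul, map_sub, QQ_apply, QQ_apply, integral_eL_mul, integral_eL_mul,
    ← integral_sh (2 ^ m) fun k => hh m k * ψ (GG.mk k 0)⁻¹.k]
  simp [hh'_apply]

theorem QQ_f0 (ψ : C(KK, ℂ)) : QQ ψ f0 = 0 := by
  rw [f0, (QQ ψ).map_tsum summable_term]
  simp [QQ_term]

theorem PP_term (ψ : C(KK, ℂ)) (m : ℕ) : PP ψ (term m) = II ψ (hh m) - II ψ (hh (m + 1)) := by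
  rw [term, map_smul, map_sub, PP_eL, PP_eL, ← map_sub, ← map_smul, hh_succ, map_sub]

theorem tendsto_II_hh (ψ : C(KK, ℂ)) : Tendsto (fun m => II ψ (hh m)) atTop (𝓝 0) := by
  have h1 := summable_bound.tendsto_atTop_zero.mul_const ‖ψ‖
  rw [zero_mul] at h1
  refine squeeze_zero_norm (fun m => ?_) h1
  refine le_trans ?_ (mul_le_mul_of_nonneg_right (integral_norm_hh_le m) (norm_nonneg ψ))
  rw [II_apply, ← integral_mul_const]
  refine norm_integral_le_of_norm_le (integrable_cont (by fun_prop)) ?_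
  refine Eventually.of_forall fun k => ?_
  rw [norm_mul]
  exact mul_le_mul_of_nonneg_left (ψ.norm_coe_le_norm k) (norm_nonneg _)

theorem PP_f0 (ψ : C(KK, ℂ)) : PP ψ f0 = II ψ (hh 0) := by
  have h1 := (summable_term.hasSum.mapL (PP ψ)).tendsto_sum_nat
  simp only [PP_term, Finset.sum_range_sub'  (fun m => II ψ (hh m))] at h1
  have h2 := (tendsto_const_nhds (x := II ψ (hh 0))).sub (tendsto_II_hh ψ)
  rw [sub_zero] at h2
  exact tendsto_nhds_unique h1 h2

/-- The special element of the Segal algebra. -/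
noncomputable def a0 : AA := ⟨(f0, hh 0), PP_f0⟩

theorem exists_counterexample :
    ∃ (B : Type) (_ : NonUnitalNormedRing B) (_ : NormedSpace ℂ B) (_ : IsScalarTower ℂ B B)
      (_ : SMulCommClass ℂ B B) (_ : CompleteSpace B) (j : B →ₗ[ℂ] Lp ℂ 1 mG),
      IsSegalAlgebra mG B j ∧ ¬ IsPseudoAmenable B :=
  segalData.exists_segal phiA a0 (fun b => (phiA_act f0 b).trans (QQ_f0 _))
    (by rw [phiA_apply]; change hh 0 1 ≠ 0; rw [hh_zero_one]; exact one_ne_zero)

end Pool.Agent.Work.MP_dc0135_an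
end
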